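import Pool.Agent.W358.SC.Frame

set_option autoImplicit false
set_option linter.unusedSectionVars false

namespace Pool.Agent.W358.SC

open Pool.Agent.W236.Qv

section

variable {S : Type*} [Fintype S] [DecidableEq S] (G : Gph S)

/-- the simple representation -/
def smp (r : S) : Rep S := ⟨Pi.single r 1, fun _ _ => 0⟩

theorem scal {m : ℕ} (hm : m = 1) (f : (Fin m → ℚ) →ₗ[ℚ] (Fin m → ℚ)) :
    ∃ c : ℚ, f = c • LinearMap.id := by
  subst hm
  refine ⟨f (fun _ => 1) 0, LinearMap.ext fun x => funext fun i => ?_⟩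
  have hx : x = x 0 • (fun _ => 1 : Fin 1 → ℚ) := by
    funext j
    rw [Subsingleton.elim j 0]
    simp
  have hi : i = 0 := Subsingleton.elim _ _
  rw [hi]
  conv_lhs => rw [hx, map_smul]
  simp
  ring

theorem sub0 {m : ℕ} (hm : m = 0) : Subsingleton (Fin m → ℚ) := by
  subst hm
  infer_instance

theorem smp_ne {r i : S} (h : i ≠ r) : (smp r).d i = 0 := Pi.single_eq_of_ne h 1

theorem smp_self (r : S) : (smp r).d r = 1 := Pi.single_eq_same r 1

theorem brick_smp (p : S → ℕ) (r : S) : Brick G p (smp r) := by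
  refine ⟨⟨r, by rw [smp_self]; exact one_ne_zero⟩, fun φ _ => ?_⟩
  obtain ⟨c, hc⟩ := scal (smp_self r) (φ r)
  refine ⟨c, fun i => ?_⟩
  by_cases hi : i = r
  · subst hi
    exact hc
  · have := sub0 (smp_ne hi)
    exact LinearMap.ext fun x => Subsingleton.elim _ _

theorem hom_id (p : S → ℕ) (M : Rep S) : IsHom G p M M fun _ => LinearMap.id := by
  intro i j _
  rw [LinearMap.comp_id, LinearMap.id_comp]

/-- dimensions of the reflection of an onto representation -/
theorem cp_sr (h2 : S_CpDim G) {p : S → ℕ} {r : S} {V V' : Rep S}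
    {e : ∀ i, (Fin (V.d i) → ℚ) →ₗ[ℚ] (Fin (V'.d i) → ℚ)} (h : IsCp G p r V V' e)
    (hs : SurjAt G r V) : (fun i => (V'.d i : ℤ)) = G.sr r (fun i => (V.d i : ℤ)) := by
  obtain ⟨h3, c, h4, h5, -⟩ := h2 p r V V' e h
  rw [h5 hs, add_zero] at h4
  funext i
  unfold Gph.sr
  by_cases hi : i = r
  · subst hi
    rw [Function.update_self]
    have h6 := congrArg (Nat.cast : ℕ → ℤ) h4
    push_cast at h6
    linarith
  · rw [Function.update_of_ne hi, h3 i hi]

theorem inj_le {a b : ℕ} {f : (Fin a → ℚ) →ₗ[ℚ] (Fin b → ℚ)} (h : Function.Injective f) :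
    a ≤ b := by
  have := LinearMap.finrank_le_finrank_of_injective h
  simpa using this

theorem surj_le {a b : ℕ} {f : (Fin a → ℚ) →ₗ[ℚ] (Fin b → ℚ)} (h : Function.Surjective f) :
    b ≤ a := by
  have := LinearMap.finrank_le_finrank_of_surjective h
  simpa using this

theorem exseq {α : Type*} (R : ℕ → α → α → Prop) (hR : ∀ k a, ∃ b, R k a b) (a0 : α) :
    ∃ f : ℕ → α, f 1 = a0 ∧ ∀ k, 1 ≤ k → R k (f k) (f (k + 1)) := by
  choose g hg using hR
  refine ⟨fun k => Nat.rec a0 (fun j a => if j = 0 then a0 else g j a) k, ?_, ?_⟩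
  · simp
  · intro k hk
    have h1 : k ≠ 0 := by omega
    simp only [h1, if_false]
    exact hg _ _

/-- the step between consecutive representations -/
def Step (q : ℕ → S) (U : Set ℕ) (n : ℕ) (k : ℕ) (V V' : Rep S) : Prop :=
  (k ∈ U → ∃ e, IsCp G (pf q n k) (q k) V V' e) ∧
  (k ∉ U → ∃ e, OutIso G (pf q n k) (q k) V V' e ∧ V'.d (q k) = 0)

/-- a rigid brick is determined outside `r` -/
theorem out_of_rigid (h13 : S_Unique S) {p p' : S → ℕ} {r : S} (hR : G.Rot p r p')
    {M M' : Rep S} (hd : M.d = M'.d) (h1 : Rigid (G.arr p) M.d M.f)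
    (h2 : Rigid (G.arr p') M'.d M'.f) : ∃ e, OutIso G p r M M' e := by
  obtain ⟨d, f⟩ := M
  obtain ⟨d', g⟩ := M'
  simp only at hd h1 h2
  subst hd
  obtain ⟨e, he1, he2⟩ := h13 (fun i j => G.arr p i j ∧ i ≠ r ∧ j ≠ r) d f g
    (fun E => by
      obtain ⟨h, hh⟩ := h1 E
      exact ⟨h, fun i j hij => hh i j hij.1⟩)
    (fun E => by
      obtain ⟨h, hh⟩ := h2 E
      refine ⟨h, fun i j hij => hh i j ⟨hij.1.1, ?_⟩⟩
      rw [hR.1 i hij.2.1, hR.1 j hij.2.2]
      exact hij.1.2)
  exact ⟨e, fun i _ => he1 i, fun i j hi hj ha => he2 i j ⟨ha, hi, hj⟩⟩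

open Classical in
/-- the recursion of the roots -/
def HY (q : ℕ → S) (U : Set ℕ) (n : ℕ) (Y : ℕ → S → ℤ) : Prop :=
  ∀ k, 1 ≤ k → k < n → Y (k + 1) = if k ∈ U then G.sr (q k) (Y k) else Y k

variable (hPD : G.PD) (h1 : S_CpEx G) (h2 : S_CpDim G) (h3 : S_CpMono G)
  (h4 : S_CmEx G) (h5 : S_BrickCp G) (h6 : S_BrickSurj G) (h7 : S_BrickInj G) (h8 : S_CpQuot G)
  (h9 : S_Rs G) (h10 : S_RsMono G) (h11 : S_RsQuot G) (h12 : S_RigidOf G) (h13 : S_Unique S)
  (h14 : S_BrickEx G)
  (q : ℕ → S) (U : Set ℕ) (n : ℕ) (Y : ℕ → S → ℤ)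
  (halt : ∀ s t, G.adj s t = true → ∀ i j, i < j → j < n → q i = s → q j = s →
    ∃ k, i < k ∧ k < j ∧ q k = t)
  (hY1 : Y 1 = Pi.single (q 0) 1)
  (hY : HY G q U n Y)
  (hYU : ∀ k, 1 ≤ k → k < n → k ∈ U → Y k ≠ Pi.single (q k) 1)
  (V : ℕ → Rep S) (hV1 : V 1 = smp (q 0))
  (hV : ∀ k, 1 ≤ k → Step G q U n k (V k) (V (k + 1)))

include hPD h1 h2 h3 h5 h6 h10 h12 h13 h14 halt hY1 hY hYU hV1 hV

theorem stepA : ∀ k, 1 ≤ k → k ≤ n → G.qf (Y k) = 2 ∧
    ∃ M, Brick G (pf q n k) M ∧ (∀ i, (M.d i : ℤ) = Y k i) ∧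
      ∃ φ, IsHom G (pf q n k) (V k) M φ ∧ ∀ i, Function.Injective (φ i) := by
  intro k hk
  induction k, hk using Nat.le_induction with
  | base =>
    intro _
    rw [hY1, hV1]
    refine ⟨qf_single G _, smp (q 0), brick_smp G _ _, fun i => ?_, fun _ => LinearMap.id,
      hom_id G _ _, fun i => Function.injective_id⟩
    by_cases hi : i = q 0
    · subst hi
      rw [smp_self, Pi.single_eq_same, Nat.cast_one]
    · rw [smp_ne hi, Pi.single_eq_of_ne hi, Nat.cast_zero]
  | succ k hk ih =>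
    intro hkn
    have hkn' : k < n := by omega
    obtain ⟨hq, M, hM, hMd, φ, hφ, hφi⟩ := ih hkn'.le
    have hR := rot G q n halt hkn'
    have hMd' : (fun i => (M.d i : ℤ)) = Y k := funext hMd
    rw [hY k hk hkn']
    by_cases hU : k ∈ U
    · rw [if_pos hU]
      refine ⟨by rw [qf_sr, hq], ?_⟩
      have hne : M.d ≠ Pi.single (q k) 1 := by
        intro h
        apply hYU k hk hkn' hU
        rw [← hMd', h]
        funext i
        by_cases hi : i = q k
        · subst hi
          rw [Pi.single_eq_same, Pi.single_eq_same, Nat.cast_one]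
        · rw [Pi.single_eq_of_ne hi, Pi.single_eq_of_ne hi, Nat.cast_zero]
      have hs : SurjAt G (q k) M := h6 _ _ _ (fun j hj => (hR.2 j hj).1) hM hne
      obtain ⟨M', e', hM'⟩ := h1 (pf q n k) (q k) M
      have hB := (h5 _ _ _ _ _ _ hR hM' hs).1 hM
      have hd := cp_sr G h2 hM' hs
      rw [hMd'] at hd
      obtain ⟨e, he⟩ := (hV k hk).1 hU
      exact ⟨M', hB, fun i => congrFun hd i, h3 _ _ _ _ _ _ _ _ _ hR he hM' φ hφ hφi⟩
    · rw [if_neg hU]
      refine ⟨hq, ?_⟩
      obtain ⟨M', hB, hMd2⟩ := h14 hPD (pf q n (k + 1)) (Y k) (fr G q n _)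
        (fun i => by rw [← hMd i]; exact Int.natCast_nonneg _) hq
      have hd : M.d = M'.d := by
        funext i
        have := (hMd i).trans (hMd2 i).symm
        exact_mod_cast this
      have r1 := h12 (pf q n k) M (fr G q n _) hM (by rw [hMd']; exact hq)
      have r2 := h12 (pf q n (k + 1)) M' (fr G q n _) hB
        (by rw [show (fun i => (M'.d i : ℤ)) = Y k from funext hMd2]; exact hq)
      obtain ⟨e', he'⟩ := out_of_rigid G h13 hR hd r1 r2
      obtain ⟨e, he, hVd⟩ := (hV k hk).2 hU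
      exact ⟨M', hB, hMd2, h10 _ _ _ _ _ _ _ _ _ hR he hVd he' φ hφ hφi⟩

omit hPD h1 h2 h3 h5 h6 h10 h12 h13 h14 halt hY1 hY hYU hV1 hV

open Classical in
/-- the transport -/
theorem tr_step (j k : ℕ) (hj : 1 ≤ j) (hk : j < k) (x : S → ℤ) :
    G.tr q U (j - 1) x k = G.tr q U j (if j ∈ U then G.sr (q j) x else x) k := by
  have hz : ∀ (i : ℕ) (y : S → ℤ) (m : ℕ), m ≤ i + 1 → G.tr q U i y m = y := by
    intro i y m
    induction m with
    | zero =>
      intro _
      simp only [Gph.tr]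
    | succ m ih =>
      intro hm
      simp only [Gph.tr]
      rw [if_neg (by omega), ih (by omega)]
  induction k, hk using Nat.le_induction with
  | base =>
    rw [Nat.succ_eq_add_one, hz j _ (j + 1) le_rfl]
    simp only [Gph.tr]
    rw [hz (j - 1) x j (by omega)]
    have : j - 1 < j := by omega
    simp only [this, true_and]
  | succ k hk ih =>
    simp only [Gph.tr]
    rw [ih]
    have a1 : j - 1 < k := by omega
    have a2 : j < k := hk
    simp only [a1, a2, true_and]

include hY in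
theorem tr_Y : ∀ k, 1 ≤ k → k ≤ n → G.tr q U 0 (Y 1) k = Y k := by
  intro k hk
  induction k, hk using Nat.le_induction with
  | base =>
    intro _
    simp only [Gph.tr]
    rw [if_neg (by omega)]
  | succ k hk ih =>
    intro hkn
    simp only [Gph.tr]
    rw [ih (by omega), hY k hk (by omega)]
    by_cases hU : k ∈ U
    · rw [if_pos ⟨hk, hU⟩, if_pos hU]
    · rw [if_neg (fun h => hU h.2), if_neg hU]

include h2 h4 h5 h7 h8 h11 halt hV in
/-- going down -/
theorem down (k : ℕ) (hkn : k < n) (N0 : Rep S)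
    (hN0 : Brick G (pf q n k) N0) (hN0' : ∃ ψ, IsHom G (pf q n k) (V k) N0 ψ ∧
      ∀ i, Function.Surjective (ψ i)) :
    ∀ m j, j + m = k → 1 ≤ j → (∃ i, 1 ≤ i ∧ i < k ∧ i ∈ U ∧
      G.tr q U i (Pi.single (q i) 1) k = fun i => (N0.d i : ℤ)) ∨
      ∃ N, Brick G (pf q n j) N ∧ (∃ ψ, IsHom G (pf q n j) (V j) N ψ ∧
        ∀ i, Function.Surjective (ψ i)) ∧
        G.tr q U (j - 1) (fun i => (N.d i : ℤ)) k = fun i => (N0.d i : ℤ) := by
  intro m
  induction m with
  | zero =>
    intro j hj hj1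
    rw [add_zero] at hj
    subst hj
    right
    refine ⟨N0, hN0, hN0', ?_⟩
    have hz : ∀ (i : ℕ) (y : S → ℤ) (m : ℕ), m ≤ i + 1 → G.tr q U i y m = y := by
      intro i y m
      induction m with
      | zero =>
        intro _
        simp only [Gph.tr]
      | succ m ih =>
        intro hm
        simp only [Gph.tr]
        rw [if_neg (by omega), ih (by omega)]
    exact hz _ _ _ (by omega)
  | succ m ih =>
    intro j hjm hj
    rcases ih (j + 1) (by omega) (by omega) with h | ⟨N', hN', ⟨ψ', hψ', hψs⟩, hT⟩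
    · exact Or.inl h
    have hj' : j < k := by omega
    have e3 : j + 1 - 1 = j := by omega
    rw [e3] at hT
    have hR := rot G q n halt (hj'.trans hkn)
    by_cases hU : j ∈ U
    · by_cases hs : N'.d = Pi.single (q j) 1
      · left
        refine ⟨j, hj, hj', hU, ?_⟩
        rw [← hT, hs]
        congr 1
        funext i
        by_cases hi : i = q j
        · subst hi
          rw [Pi.single_eq_same, Pi.single_eq_same, Nat.cast_one]
        · rw [Pi.single_eq_of_ne hi, Pi.single_eq_of_ne hi, Nat.cast_zero]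
      · right
        have hI : InjAt G (q j) N' := by
          refine h7 _ _ _ (fun t ht => ?_) hN' hs
          have hne : t ≠ q j := by
            rintro rfl
            rw [G.irr] at ht
            exact absurd ht (by simp)
          rw [hR.1 t hne]
          exact (hR.2 t ht).2
        obtain ⟨N, e', hN, hNs⟩ := h4 (pf q n j) (q j) N' hI
        have hB := (h5 _ _ _ _ _ _ hR hN hNs).2 hN'
        have hd := cp_sr G h2 hN hNs
        obtain ⟨e, he⟩ := (hV j hj).1 hU
        refine ⟨N, hB, h8 _ _ _ _ _ _ _ _ _ hR he hN hNs ψ' hψ' hψs, ?_⟩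
        rw [tr_step G q U j k hj hj', if_pos hU, ← hd]
        exact hT
    · right
      obtain ⟨e, he, hVd⟩ := (hV j hj).2 hU
      obtain ⟨-, hB, hψ⟩ := h11 _ _ _ _ _ _ _ hR he hVd hN' ψ' hψ' hψs
      refine ⟨N', hB, hψ, ?_⟩
      rw [tr_step G q U j k hj hj', if_neg hU]
      exact hT

include h2 h4 h5 h7 h8 h11 halt hY1 hY hYU hV1 hV in
theorem birth (k : ℕ) (hk : 1 ≤ k) (hkn : k < n) (hU : k ∈ U)
    (hl : ∃ l : (Fin ((V k).d (q k)) → ℚ) →ₗ[ℚ] ℚ, l ≠ 0 ∧
      ∀ t, G.adj (q k) t = true → l ∘ₗ (V k).f t (q k) = 0) :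
    ∃ i, 1 ≤ i ∧ i < k ∧ i ∈ U ∧
      G.tr q U i (Pi.single (q i) 1) k = Pi.single (q k) 1 := by
  obtain ⟨l, hl0, hl⟩ := hl
  have hd : (fun i => ((smp (q k)).d i : ℤ)) = Pi.single (q k) 1 := by
    funext i
    by_cases hi : i = q k
    · subst hi
      rw [smp_self, Pi.single_eq_same, Nat.cast_one]
    · rw [smp_ne hi, Pi.single_eq_of_ne hi, Nat.cast_zero]
  have hψ0 : ∃ ψ, IsHom G (pf q n k) (V k) (smp (q k)) ψ ∧
      ∀ i, Function.Surjective (ψ i) := by
    have hex : ∀ i, ∃ ψ : (Fin ((V k).d i) → ℚ) →ₗ[ℚ] (Fin ((smp (q k)).d i) → ℚ),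
        Function.Surjective ψ ∧ ∀ j, G.adj j i = true → ψ ∘ₗ (V k).f j i = 0 := by
      intro i
      by_cases hi : i = q k
      · subst hi
        refine ⟨LinearMap.pi fun _ => l, ?_, ?_⟩
        · intro y
          obtain ⟨x, hx⟩ : ∃ x, l x ≠ 0 := by
            by_contra h
            push Not at h
            exact hl0 (LinearMap.ext h)
          have h1 : 0 < (smp (q k)).d (q k) := by
            rw [smp_self]
            exact one_pos
          refine ⟨(y ⟨0, h1⟩ / l x) • x, funext fun j => ?_⟩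
          have hj : j = ⟨0, h1⟩ := by
            apply Fin.ext
            have h3 := j.2
            have h4 := smp_self (q k)
            have h5 : (j : ℕ) < 1 := h3.trans_eq h4
            simp only
            omega
          rw [LinearMap.pi_apply, map_smul, smul_eq_mul, div_mul_cancel₀ _ hx, hj]
        · intro j hj
          refine LinearMap.ext fun x => funext fun _ => ?_
          exact LinearMap.congr_fun (hl j (by rw [G.symm]; exact hj)) x
      · have := sub0 (smp_ne hi)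
        exact ⟨0, fun y => ⟨0, Subsingleton.elim _ _⟩, fun j _ => LinearMap.zero_comp _⟩
    choose ψ hψ1 hψ2 using hex
    refine ⟨ψ, fun i j ha => ?_, hψ1⟩
    rw [hψ2 j i ha.1]
    rfl
  rcases down G h2 h4 h5 h7 h8 h11 q U n halt V hV k hkn (smp (q k)) (brick_smp G _ _) hψ0 (k - 1)
    1 (by omega) le_rfl with h | ⟨N, hN, ⟨ψ, -, hψs⟩, hT⟩
  · obtain ⟨i, a1, a2, a3, a4⟩ := h
    exact ⟨i, a1, a2, a3, a4.trans hd⟩
  · exfalso
    have hle : ∀ i, N.d i ≤ (smp (q 0)).d i := by
      intro i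
      rw [← hV1]
      exact surj_le (hψs i)
    have hNd : (fun i => (N.d i : ℤ)) = Y 1 := by
      obtain ⟨i0, hi0⟩ := hN.1
      have h0 : N.d (q 0) ≠ 0 := by
        by_cases h : i0 = q 0
        · rwa [h] at hi0
        · have := hle i0
          rw [smp_ne h] at this
          omega
      rw [hY1]
      funext i
      by_cases hi : i = q 0
      · subst hi
        have := hle (q 0)
        rw [smp_self] at this
        rw [Pi.single_eq_same]
        have h1 : N.d (q 0) = 1 := by omega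
        rw [h1, Nat.cast_one]
      · have := hle i
        rw [smp_ne hi] at this
        rw [Pi.single_eq_of_ne hi]
        have h1 : N.d i = 0 := by omega
        rw [h1, Nat.cast_zero]
    rw [hNd, Nat.sub_self, tr_Y G q U n Y hY k hk hkn.le, hd] at hT
    exact hYU k hk hkn hU hT

end

variable {S : Type*} [Fintype S] [DecidableEq S] (G : Gph S)

theorem slwl (hPD : G.PD) (h1 : S_CpEx G) (h2 : S_CpDim G) (h3 : S_CpMono G)
    (h4 : S_CmEx G) (h5 : S_BrickCp G) (h6 : S_BrickSurj G) (h7 : S_BrickInj G) (h8 : S_CpQuot G)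
    (h9 : S_Rs G) (h10 : S_RsMono G) (h11 : S_RsQuot G) (h12 : S_RigidOf G) (h13 : S_Unique S)
    (h14 : S_BrickEx G) : SLWL G := by
  intro q U n Y halt hY1 hY hYU
  obtain ⟨V, hV1, hV⟩ := exseq (Step G q U n) (fun k V => by
    by_cases hU : k ∈ U
    · obtain ⟨V', e, h⟩ := h1 (pf q n k) (q k) V
      exact ⟨V', fun _ => ⟨e, h⟩, fun h' => absurd hU h'⟩
    · obtain ⟨V', e, h⟩ := h9 (pf q n k) (q k) V
      exact ⟨V', fun h' => absurd h' hU, fun _ => ⟨e, h⟩⟩) (smp (q 0))
  have hA := stepA G hPD h1 h2 h3 h5 h6 h10 h12 h13 h14 q U n Y halt hY1 hY hYU V hV1 hV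
  have hcex : ∀ k, ∃ c : ℤ, 1 ≤ k → k < n → k ∈ U → 0 ≤ c ∧
      (fun i => ((V (k + 1)).d i : ℤ)) =
        G.sr (q k) ((fun i => ((V k).d i : ℤ)) - c • Pi.single (q k) 1) ∧
      (c ≠ 0 → ∃ i, 1 ≤ i ∧ i < k ∧ i ∈ U ∧
        G.tr q U i (Pi.single (q i) 1) k = Pi.single (q k) 1) := by
    intro k
    by_cases hk : 1 ≤ k ∧ k < n ∧ k ∈ U
    · obtain ⟨hk1, hkn, hU⟩ := hk
      obtain ⟨e, he⟩ := (hV k hk1).1 hU
      obtain ⟨b1, c, b2, -, b3⟩ := h2 _ _ _ _ _ he
      refine ⟨c, fun _ _ _ => ⟨Int.natCast_nonneg _, ?_, fun hc => ?_⟩⟩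
      · funext i
        unfold Gph.sr
        by_cases hi : i = q k
        · subst hi
          rw [Function.update_self]
          have h6 := congrArg (Nat.cast : ℕ → ℤ) b2
          push_cast at h6
          have h7 : (∑ t, if G.adj (q k) t = true then
              ((fun i => ((V k).d i : ℤ)) - (c : ℤ) • (Pi.single (q k) 1 : S → ℤ)) t else 0) =
              ∑ t, if G.adj (q k) t = true then ((V k).d t : ℤ) else 0 := by
            refine Finset.sum_congr rfl fun t _ => ?_
            split_ifs with ht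
            · have : t ≠ q k := by
                rintro rfl
                rw [G.irr] at ht
                exact absurd ht (by simp)
              rw [Pi.sub_apply, Pi.smul_apply, Pi.single_eq_of_ne this, smul_zero, sub_zero]
            · rfl
          rw [h7, Pi.sub_apply, Pi.smul_apply, Pi.single_eq_same, smul_eq_mul, mul_one]
          linarith
        · rw [Function.update_of_ne hi, Pi.sub_apply, Pi.smul_apply, Pi.single_eq_of_ne hi,
            smul_zero, sub_zero, b1 i hi]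
      · exact birth G h2 h4 h5 h7 h8 h11 q U n Y halt hY1 hY hYU V hV1 hV k hk1 hkn hU
          (b3 (by exact_mod_cast hc))
    · exact ⟨0, fun a1 a2 a3 => absurd ⟨a1, a2, a3⟩ hk⟩
  choose c hc using hcex
  refine ⟨fun k i => ((V k).d i : ℤ), c, ?_, ?_, ?_⟩
  · funext i
    show ((V 1).d i : ℤ) = _
    rw [hV1]
    by_cases hi : i = q 0
    · subst hi
      rw [smp_self, Pi.single_eq_same, Nat.cast_one]
    · rw [smp_ne hi, Pi.single_eq_of_ne hi, Nat.cast_zero]
  · intro k hk hkn
    obtain ⟨-, M, -, hM, φ, -, hφ⟩ := hA k hk hkn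
    refine ⟨fun i => Int.natCast_nonneg _, fun i => ?_⟩
    rw [← hM i]
    show ((V k).d i : ℤ) ≤ _
    exact_mod_cast inj_le (hφ i)
  · intro k hk hkn
    refine ⟨fun hU => ?_, fun hU => hc k hk hkn hU⟩
    obtain ⟨e, he, hd⟩ := (hV k hk).2 hU
    funext i
    show ((V (k + 1)).d i : ℤ) = Function.update (fun i => ((V k).d i : ℤ)) (q k) 0 i
    by_cases hi : i = q k
    · subst hi
      rw [Function.update_self]
      exact_mod_cast hd
    · rw [Function.update_of_ne hi]
      have h1 := LinearEquiv.finrank_eq (LinearEquiv.ofBijective (e i) (he.bij i hi))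
      simp only [Module.finrank_fintype_fun_eq_card, Fintype.card_fin] at h1
      exact_mod_cast h1.symm

end Pool.Agent.W358.SC
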