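import Pool.Agent.W236.SC.Defs2

set_option autoImplicit false
set_option linter.unusedSectionVars false

namespace Pool.Agent.W358.SC

open Pool.Agent.W236.SC Pool.Agent.Helper741

variable {B : Type*} [Fintype B] [DecidableEq B] {M : CoxeterMatrix B}
variable {W : Type*} [Group W] (cs : CoxeterSystem M W)

section

variable {cs} {n : ℕ} {b : W} {s t : B} {q : ℕ → B} {U : Finset ℕ} {d h : ℕ → W}

theorem geo_mul_apply (w w' : W) (v : B → ℝ) : geo cs (w * w') v = geo cs w (geo cs w' v) := by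
  rw [map_mul]
  rfl

theorem pf_eq (hD : Dih cs n b s t q U d h) {k : ℕ} (hk : k ≤ n) :
    pf cs q U k = b * d k * h k := by
  have := hD.dec k hk
  rw [mul_assoc, ← this, mul_inv_cancel_left]

theorem rt_eq (hD : Dih cs n b s t q U d h) {k : ℕ} (hk : k ≤ n) :
    rt cs q U k = geo cs (b * d k) (geo cs (h k) (ee (q k))) := by
  unfold rt
  rw [pf_eq hD hk, geo_mul_apply]

/-- the part in the dihedral group is constant where no position of the plane is used -/
theorem d_const (hD : Dih cs n b s t q U d h) (i l : ℕ) (hil : i ≤ l) (hl : l ≤ n)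
    (hno : ∀ k, i ≤ k → k < l → ¬ (PsiAt cs b s t q U k ∧ k ∈ U)) : d l = d i := by
  induction l, hil using Nat.le_induction with
  | base => rfl
  | succ l hil ih =>
    have h1 := ih (by omega) (fun k hk hkl => hno k hk (by omega))
    rw [← h1]
    have h2 := hno l hil (by omega)
    have hln : l < n := by omega
    by_cases hP : PsiAt cs b s t q U l
    · have hU : l ∉ U := fun h => h2 ⟨hP, h⟩
      rcases (hD.psi l hln).1 hP with h3 | h3
      · exact (hD.psiD l hln s (Or.inl rfl) h3).2 hU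
      · exact (hD.psiD l hln t (Or.inr rfl) h3).2 hU
    · exact hD.nonD l hln hP

/-- outside the plane the root has a coordinate outside the plane -/
theorem coord (hPl : S_PLANE cs) (hst : s ≠ t) (hD : Dih cs n b s t q U d h) {k : ℕ} (hk : k ≤ n)
    (hP : ¬ PsiAt cs b s t q U k) :
    ∃ i, i ≠ s ∧ i ≠ t ∧ geo cs (h k) (ee (q k)) i ≠ 0 := by
  unfold PsiAt at hP
  push Not at hP
  obtain ⟨i, hi, hi', h1⟩ := hP
  refine ⟨i, hi, hi', ?_⟩
  rw [rt_eq hD hk, geo_mul_apply, geo_inv_apply] at h1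
  rwa [((hPl s t hst (d k) (hD.dmem k hk)).1 _ i hi hi')] at h1

/-- between two opposite roots a position of the plane is used -/
theorem between (hB : BaseF cs) (hR : S_ROOTS cs) {ω : W} (hF : IsFac cs n q ω U)
    (hD : Dih cs n b s t q U d h) {i l : ℕ} (hil : i < l) (hl : l < n) (hi : i ∈ U)
    (hlU : l ∈ U) (hP : ¬ PsiAt cs b s t q U i)
    (hopp : geo cs (h l) (ee (q l)) = - geo cs (h i) (ee (q i))) :
    ∃ p, i < p ∧ p < l ∧ PsiAt cs b s t q U p ∧ p ∈ U := by
  by_contra hno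
  push Not at hno
  have hd : d l = d i := d_const hD i l hil.le hl.le (fun k hk hkl => by
    rintro ⟨h1, h2⟩
    rcases Nat.eq_or_lt_of_le hk with h3 | h3
    · subst h3
      exact hP h1
    · exact hno k h3 hkl h1 h2)
  have h1 := ((hR n q ω U hF).1 i hi).1
  have h2 := ((hR n q ω U hF).1 l hlU).1
  have h3 : rt cs q U l = - rt cs q U i := by
    rw [rt_eq hD hl.le, rt_eq hD (hil.trans hl).le, hd, hopp, map_neg]
  rw [h3] at h2
  have h4 : rt cs q U i = 0 := le_antisymm (by simpa using h2) h1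
  exact hB.rt_ne _ (hB.rt_geo _ _ (hB.rt_ee _)) h4

end

theorem alt2 (hB : BaseF cs) (hAlt : S_ALT cs) (hR : S_ROOTS cs) (hPl : S_PLANE cs) :
    S_ALT2 cs := by
  intro n q ω b x y I0 I1 t0 k1 k2 M0 d0 d1 h hAM hxy hM2 hM0 _ _ hF0 hF1 hSame hD0 hD1
    h01 h12 h2M hMn ht0 hM0' hk1 hk2 H1 H2 H3 H4 H5
  have hPt0 : PsiAt cs b x y q I0 t0 := (hD0.psi t0 (by omega)).2 (Or.inr ht0)
  have hPk1 : PsiAt cs b x y q I0 k1 := (hD0.psi k1 (by omega)).2 (Or.inl hk1)
  have hPk2 : PsiAt cs b x y q I0 k2 := (hD0.psi k2 (by omega)).2 (Or.inl hk2)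
  refine hAlt n q {k | k ∈ I0 ∧ ¬ PsiAt cs b x y q I0 k} h x y t0 k1 k2 M0 hAM hxy hM2 h01 h12
    h2M hMn ?_ ?_ ?_ ?_ ?_ ?_ ?_ ?_ ?_ ?_ ?_ ?_
  · intro k hk hkM hkN
    exact hD0.nonU k (by omega) hkN.2 hkN.1
  · intro k hk hkM hkN
    by_cases hP : PsiAt cs b x y q I0 k
    · exact hD0.psiH k (by omega) hP
    · exact hD0.nonS k (by omega) hP (fun h1 => hkN ⟨h1, hP⟩)
  · rw [hD0.psiH t0 (by omega) hPt0, ← ht0, geo_inv_apply]
  · rw [← hM0', geo_inv_apply]
  · rw [← hk1, geo_inv_apply]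
  · rw [← hk2, geo_inv_apply]
  · exact fun h1 => h1.2 hPk1
  · exact fun h1 => h1.2 hPk2
  · intro k hk hkM hkN
    by_cases hP : PsiAt cs b x y q I0 k
    · exact Or.inl (H1 k hk hkM hP)
    · exact Or.inr ⟨H3 k hk hkM hP (fun h1 => hkN ⟨h1, hP⟩),
        coord hPl hxy hD0 (by omega) hP⟩
  · intro k hk hkM _ h1
    exact H2 k hk hkM ((hD0.psi k (by omega)).2 (Or.inl h1))
  · intro k hk hkM hkN
    exact coord hPl hxy hD0 (by omega) hkN.2
  · intro i l hi hil hl hiN hlN hopp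
    obtain ⟨p, hp1, hp2, hp3, hp4⟩ := between hB hR hF0 hD0 hil (by omega) hiN.1 hlN.1 hiN.2 hopp
    have hk2p := (H4 p (by omega) (by omega) hp3 hp4).1
    have hSi := hSame i (by omega)
    have hSl := hSame l (by omega)
    have hPi1 : ¬ PsiAt cs b x y q I1 i := fun h1 => hiN.2 (hSi.1.2 h1)
    have hi1 : i ∈ I1 := (hSi.2 hiN.2).1 hiN.1
    have hl1 : l ∈ I1 := (hSl.2 hlN.2).1 hlN.1
    obtain ⟨p', hp1', hp2', hp3', hp4'⟩ := between hB hR hF1 hD1 hil (by omega) hi1 hl1 hPi1 hopp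
    have hpk : p' = k1 := H5 p' (by omega) (by omega) hp3' hp4'
    subst hpk
    refine ⟨hp1', by omega, ?_⟩
    have e1 : d1 p' = d1 i := d_const hD1 i p' hp1'.le (by omega) (fun k hk hkl => by
      rintro ⟨g1, g2⟩
      rcases Nat.eq_or_lt_of_le hk with g3 | g3
      · subst g3
        exact hPi1 g1
      · have := H5 k (by omega) (by omega) g1 g2
        omega)
    have e2 : d1 (p' + 1) = d1 p' * cs.simple x :=
      (hD1.psiD p' (by omega) x (Or.inl rfl) hk1).1 hp4'
    have e3 : d1 l = d1 (p' + 1) := d_const hD1 (p' + 1) l (by omega) (by omega)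
      (fun k hk hkl => by
        rintro ⟨g1, g2⟩
        have := H5 k (by omega) (by omega) g1 g2
        omega)
    have e4 : d1 l = d1 i * cs.simple x := by rw [e3, e2, e1]
    have r1 : rt cs q I1 p' = geo cs (b * d1 i) (ee x) := by
      rw [rt_eq hD1 (by omega), e1, hk1]
    have r2 : rt cs q I1 i = geo cs (b * d1 i) (geo cs (h i) (ee (q i))) := rt_eq hD1 (by omega)
    have r3 : rt cs q I1 l =
        - geo cs (b * d1 i) (geo cs (cs.simple x) (geo cs (h i) (ee (q i)))) := by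
      rw [rt_eq hD1 (by omega), e4, hopp, map_neg, ← mul_assoc, geo_mul_apply]
    have r4 : geo cs (cs.simple x) (geo cs (h i) (ee (q i))) = geo cs (h i) (ee (q i)) -
        frm M (ee x) (geo cs (h i) (ee (q i))) • ee x := by
      have := hB.refl 1 x (geo cs (h i) (ee (q i)))
      simpa using this
    have p1 := ((hR n q ω I1 hF1).1 p' hp4').1
    have p2 := ((hR n q ω I1 hF1).1 i hi1).1
    have p3 := ((hR n q ω I1 hF1).1 l hl1).1
    have hsum : rt cs q I1 i + rt cs q I1 l =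
        frm M (ee x) (geo cs (h i) (ee (q i))) • rt cs q I1 p' := by
      rw [r2, r3, r4, r1, map_sub, map_smul]
      abel
    rw [hB.frm_symm]
    by_contra hneg
    push Not at hneg
    have h5 : rt cs q I1 i + rt cs q I1 l ≤ 0 := by
      rw [hsum]
      exact smul_nonpos_of_nonpos_of_nonneg hneg p1
    have h6 : rt cs q I1 i = 0 := by
      refine le_antisymm ?_ p2
      calc rt cs q I1 i ≤ rt cs q I1 i + rt cs q I1 l := le_add_of_nonneg_right p3
        _ ≤ 0 := h5
    exact hB.rt_ne _ (hB.rt_geo _ _ (hB.rt_ee _)) h6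

end Pool.Agent.W358.SC
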