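import Pool.Agent.W236.SC.QDefs

set_option autoImplicit false
set_option linter.unusedSectionVars false

namespace Pool.Agent.W358.SC

open Pool.Agent.W236.Qv

section frame

variable {S : Type*} [Fintype S] [DecidableEq S] (G : Gph S) (q : ℕ → S) (n : ℕ)

/-- the occurrences of `i` in `[k, n)` -/
def occ (k : ℕ) (i : S) : Set ℕ := {j | k ≤ j ∧ j < n ∧ q j = i}

/-- last occurrence plus one -/
def la (i : S) : ℕ := ((Finset.range n).filter fun j => q j = i).sup fun j => j + 1

/-- final order -/
noncomputable def Bv (i : S) : ℕ :=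
  n + la q n i * (Fintype.card S + 1) + (Fintype.equivFin S i : ℕ)

open Classical in
/-- the frames -/
noncomputable def pf (k : ℕ) (i : S) : ℕ :=
  if (occ q n k i).Nonempty then sInf (occ q n k i) else Bv q n i

theorem Bv_ge (i : S) : n ≤ Bv q n i := by
  unfold Bv
  omega

theorem idx_lt (i : S) : (Fintype.equivFin S i : ℕ) < Fintype.card S + 1 :=
  (Fintype.equivFin S i).2.trans (Nat.lt_succ_self _)

theorem Bv_inj : Function.Injective (Bv q n) := by
  intro i j h
  unfold Bv at h
  have h1 : la q n i * (Fintype.card S + 1) + (Fintype.equivFin S i : ℕ) =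
      la q n j * (Fintype.card S + 1) + (Fintype.equivFin S j : ℕ) := by omega
  have h2 := congrArg (fun x => x % (Fintype.card S + 1)) h1
  simp only [Nat.mul_add_mod_self_right] at h2
  rw [Nat.mod_eq_of_lt (idx_lt i), Nat.mod_eq_of_lt (idx_lt j)] at h2
  exact (Fintype.equivFin S).injective (Fin.ext h2)

theorem Bv_lt {i j : S} (h : la q n i < la q n j) : Bv q n i < Bv q n j := by
  unfold Bv
  have h1 := idx_lt i
  have h2 : (la q n i + 1) * (Fintype.card S + 1) ≤ la q n j * (Fintype.card S + 1) :=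
    Nat.mul_le_mul_right _ h
  rw [Nat.add_mul, Nat.one_mul] at h2
  omega

theorem pf_pos {k : ℕ} {i : S} (h : (occ q n k i).Nonempty) :
    pf q n k i = sInf (occ q n k i) := by
  unfold pf
  rw [if_pos h]

theorem pf_neg {k : ℕ} {i : S} (h : ¬ (occ q n k i).Nonempty) : pf q n k i = Bv q n i := by
  unfold pf
  rw [if_neg h]

theorem pf_mem {k : ℕ} {i : S} (h : (occ q n k i).Nonempty) : pf q n k i ∈ occ q n k i := by
  rw [pf_pos q n h]
  exact Nat.sInf_mem h

theorem pf_le {k m : ℕ} {i : S} (h : m ∈ occ q n k i) : pf q n k i ≤ m := by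
  rw [pf_pos q n ⟨m, h⟩]
  exact Nat.sInf_le h

theorem pf_inj (k : ℕ) : Function.Injective (pf q n k) := by
  intro i j h
  by_cases hi : (occ q n k i).Nonempty
  · have h1 := pf_mem q n hi
    by_cases hj : (occ q n k j).Nonempty
    · have h2 := pf_mem q n hj
      rw [← h] at h2
      exact h1.2.2.symm.trans h2.2.2
    · rw [pf_neg q n hj] at h
      rw [h] at h1
      exact absurd h1.2.1 (not_lt.2 (Bv_ge q n j))
  · by_cases hj : (occ q n k j).Nonempty
    · have h2 := pf_mem q n hj
      rw [pf_neg q n hi] at h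
      rw [← h] at h2
      exact absurd h2.2.1 (not_lt.2 (Bv_ge q n i))
    · rw [pf_neg q n hi, pf_neg q n hj] at h
      exact Bv_inj q n h

theorem fr (k : ℕ) : G.Fr (pf q n k) := by
  intro i j ha h
  have := pf_inj q n k h
  subst this
  rw [G.irr] at ha
  exact absurd ha (by simp)

theorem occ_succ {k : ℕ} {j : S} (hj : j ≠ q k) : occ q n (k + 1) j = occ q n k j := by
  ext m
  constructor
  · rintro ⟨h1, h2⟩
    exact ⟨by omega, h2⟩
  · rintro ⟨h1, h2, h3⟩
    refine ⟨?_, h2, h3⟩
    rcases Nat.eq_or_lt_of_le h1 with h | h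
    · subst h
      exact absurd h3.symm hj
    · exact h

theorem pf_succ {k : ℕ} {j : S} (hj : j ≠ q k) : pf q n (k + 1) j = pf q n k j := by
  unfold pf
  rw [occ_succ q n hj]

theorem pf_self {k : ℕ} (hk : k < n) : pf q n k (q k) = k := by
  have h1 : k ∈ occ q n k (q k) := ⟨le_rfl, hk, rfl⟩
  exact le_antisymm (pf_le q n h1) (pf_mem q n ⟨k, h1⟩).1

theorem pf_gt {k : ℕ} (hk : k < n) {j : S} (hj : j ≠ q k) : k < pf q n k j := by
  by_cases h : (occ q n k j).Nonempty
  · obtain ⟨h1, h2, h3⟩ := pf_mem q n h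
    refine lt_of_le_of_ne h1 fun h4 => ?_
    rw [← h4] at h3
    exact hj h3.symm
  · rw [pf_neg q n h]
    exact hk.trans_le (Bv_ge q n j)

theorem rot (halt : ∀ s t, G.adj s t = true → ∀ i j, i < j → j < n → q i = s → q j = s →
    ∃ k, i < k ∧ k < j ∧ q k = t) {k : ℕ} (hk : k < n) :
    G.Rot (pf q n k) (q k) (pf q n (k + 1)) := by
  refine ⟨fun j hj => pf_succ q n hj, fun j ha => ?_⟩
  have hj : j ≠ q k := by
    rintro rfl
    rw [G.irr] at ha
    exact absurd ha (by simp)
  refine ⟨by rw [pf_self q n hk]; exact pf_gt q n hk hj, ?_⟩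
  rw [← pf_succ q n hj]
  by_cases h1 : (occ q n (k + 1) (q k)).Nonempty
  · obtain ⟨h2, h3, h4⟩ := pf_mem q n h1
    obtain ⟨k', h5, h6, h7⟩ := halt (q k) j ha k _ h2 h3 rfl h4
    refine (pf_le q n (m := k') ⟨h5, h6.trans h3, h7⟩).trans_lt h6
  · rw [pf_neg q n h1]
    by_cases h2 : (occ q n (k + 1) j).Nonempty
    · exact (pf_mem q n h2).2.1.trans_le (Bv_ge q n _)
    · rw [pf_neg q n h2]
      apply Bv_lt
      have h3 : la q n j ≤ k := by
        unfold la
        refine Finset.sup_le fun m hm => ?_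
        obtain ⟨h4, h5⟩ := Finset.mem_filter.1 hm
        rw [Finset.mem_range] at h4
        by_contra h6
        rcases Nat.eq_or_lt_of_le (show k ≤ m by omega) with h7 | h7
        · subst h7
          exact hj h5.symm
        · exact h2 ⟨m, h7, h4, h5⟩
      have h4 : k + 1 ≤ la q n (q k) := by
        unfold la
        exact Finset.le_sup (f := fun j => j + 1)
          (Finset.mem_filter.2 ⟨Finset.mem_range.2 hk, rfl⟩)
      omega

end frame

section form

variable {S : Type*} [Fintype S] [DecidableEq S] (G : Gph S)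

/-- the bilinear form -/
def bf (x y : S → ℤ) : ℤ := ∑ i, x i * (2 * y i - ∑ t, if G.adj i t then y t else 0)

theorem bf_symm (x y : S → ℤ) : bf G x y = bf G y x := by
  unfold bf
  simp only [mul_sub, Finset.sum_sub_distrib, Finset.mul_sum]
  congr 1
  · refine Finset.sum_congr rfl fun i _ => ?_
    ring
  · rw [Finset.sum_comm]
    refine Finset.sum_congr rfl fun i _ => Finset.sum_congr rfl fun j _ => ?_
    rw [G.symm]
    split_ifs <;> ring

theorem bf_add_left (x y z : S → ℤ) : bf G (x + y) z = bf G x z + bf G y z := by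
  unfold bf
  rw [← Finset.sum_add_distrib]
  refine Finset.sum_congr rfl fun i _ => ?_
  rw [Pi.add_apply]
  ring

theorem bf_smul_left (c : ℤ) (x z : S → ℤ) : bf G (c • x) z = c * bf G x z := by
  unfold bf
  rw [Finset.mul_sum]
  refine Finset.sum_congr rfl fun i _ => ?_
  rw [Pi.smul_apply, smul_eq_mul]
  ring

theorem bf_single (r : S) (y : S → ℤ) :
    bf G (Pi.single r 1) y = 2 * y r - ∑ t, if G.adj r t then y t else 0 := by
  unfold bf
  rw [Finset.sum_eq_single r]
  · rw [Pi.single_eq_same, one_mul]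
  · intro i _ hi
    rw [Pi.single_eq_of_ne hi, zero_mul]
  · intro h
    exact absurd (Finset.mem_univ r) h

theorem qf_single (r : S) : G.qf (Pi.single r 1) = 2 := by
  have h : G.qf (Pi.single r 1) = bf G (Pi.single r 1) (Pi.single r 1) := rfl
  rw [h, bf_single, Pi.single_eq_same, mul_one, Finset.sum_eq_zero, sub_zero]
  intro t _
  split_ifs with ht
  · rw [Pi.single_eq_of_ne]
    rintro rfl
    rw [G.irr] at ht
    exact absurd ht (by simp)
  · rfl

theorem sr_eq (r : S) (x : S → ℤ) :
    G.sr r x = x + (-bf G (Pi.single r 1) x) • Pi.single r (1 : ℤ) := by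
  funext i
  unfold Gph.sr
  rw [bf_single, Pi.add_apply, Pi.smul_apply, smul_eq_mul]
  by_cases hi : i = r
  · subst hi
    rw [Function.update_self, Pi.single_eq_same]
    ring
  · rw [Function.update_of_ne hi, Pi.single_eq_of_ne hi]
    ring

theorem qf_sr (r : S) (x : S → ℤ) : G.qf (G.sr r x) = G.qf x := by
  have h : ∀ y, G.qf y = bf G y y := fun y => rfl
  rw [h, h, sr_eq]
  have h2 : bf G (Pi.single r 1) (Pi.single r 1) = 2 := qf_single G r
  set m := -bf G (Pi.single r 1) x with hm
  rw [bf_add_left, bf_smul_left, bf_symm G x, bf_symm G (Pi.single r 1) (x + _), bf_add_left,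
    bf_add_left, bf_smul_left, bf_smul_left, h2, bf_symm G x (Pi.single r 1)]
  have h3 : bf G (Pi.single r 1) x = -m := by rw [hm, neg_neg]
  rw [h3]
  ring

end form

end Pool.Agent.W358.SC
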