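import Pool.Agent.W236.SC.QDefs

set_option autoImplicit false
set_option linter.unusedSectionVars false

namespace Pool.Agent.W358.SC

open Pool.Agent.W236.Qv

section

variable {S : Type*} [Fintype S] [DecidableEq S] (G : Gph S)

/-- the map outside `r` -/
noncomputable def out {r : S} {V V' M M' : Rep S}
    {e : ∀ i, (Fin (V.d i) → ℚ) →ₗ[ℚ] (Fin (V'.d i) → ℚ)}
    (e' : ∀ i, (Fin (M.d i) → ℚ) →ₗ[ℚ] (Fin (M'.d i) → ℚ))
    (hb : ∀ i, i ≠ r → Function.Bijective (e i))
    (φ : ∀ i, (Fin (V.d i) → ℚ) →ₗ[ℚ] (Fin (M.d i) → ℚ)) (i : S) :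
    (Fin (V'.d i) → ℚ) →ₗ[ℚ] (Fin (M'.d i) → ℚ) :=
  if h : i ≠ r then e' i ∘ₗ φ i ∘ₗ (LinearEquiv.ofBijective (e i) (hb i h)).symm.toLinearMap else 0

section

variable {G} {p p' : S → ℕ} {r : S} {V V' M M' : Rep S}
  {e : ∀ i, (Fin (V.d i) → ℚ) →ₗ[ℚ] (Fin (V'.d i) → ℚ)}
  {e' : ∀ i, (Fin (M.d i) → ℚ) →ₗ[ℚ] (Fin (M'.d i) → ℚ)}
  (h : OutIso G p r V V' e) (h' : OutIso G p r M M' e')
  {φ : ∀ i, (Fin (V.d i) → ℚ) →ₗ[ℚ] (Fin (M.d i) → ℚ)}

omit [Fintype S] in
theorem out_apply {i : S} (hi : i ≠ r) (x : Fin (V.d i) → ℚ) :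
    out e' h.bij φ i (e i x) = e' i (φ i x) := by
  unfold out
  rw [dif_pos hi]
  have : (LinearEquiv.ofBijective (e i) (h.bij i hi)).symm (e i x) = x := by
    rw [LinearEquiv.symm_apply_eq]
    rfl
  simp only [LinearMap.comp_apply, LinearEquiv.coe_coe, this]

omit [Fintype S] in
include h' in
theorem out_inj {i : S} (hi : i ≠ r) (hφ : Function.Injective (φ i)) :
    Function.Injective (out e' h.bij φ i) := by
  intro x y hxy
  obtain ⟨x, rfl⟩ := (h.bij i hi).2 x
  obtain ⟨y, rfl⟩ := (h.bij i hi).2 y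
  rw [out_apply h hi, out_apply h hi] at hxy
  rw [hφ ((h'.bij i hi).1 hxy)]

omit [Fintype S] in
include h' in
theorem out_com (hφ : IsHom G p V M φ) {i j : S} (hi : i ≠ r) (hj : j ≠ r) (ha : G.arr p i j) :
    M'.f i j ∘ₗ out e' h.bij φ i = out e' h.bij φ j ∘ₗ V'.f i j := by
  refine LinearMap.ext fun x => ?_
  obtain ⟨x, rfl⟩ := (h.bij i hi).2 x
  have h1 := LinearMap.congr_fun (h.com i j hi hj ha) x
  have h2 := LinearMap.congr_fun (h'.com i j hi hj ha) (φ i x)
  have h3 := LinearMap.congr_fun (hφ i j ha) x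
  simp only [LinearMap.comp_apply] at h1 h2 h3 ⊢
  rw [h1, out_apply h hi, out_apply h hj, h2, h3]

omit [Fintype S] [DecidableEq S] in
theorem adj_ne {G : Gph S} {i j : S} (h : G.adj i j = true) : i ≠ j := by
  rintro rfl
  rw [G.irr] at h
  exact absurd h (by simp)

omit [Fintype S] [DecidableEq S] in
/-- the arrows of the rotated orientation -/
theorem arr_rot (hR : G.Rot p r p') {i j : S} (ha : G.arr p' i j) :
    j ≠ r ∧ (i ≠ r → G.arr p i j) := by
  have hj : j ≠ r := by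
    rintro rfl
    have hi : i ≠ j := adj_ne ha.1
    have h1 := hR.2 i (by rw [G.symm]; exact ha.1)
    have h2 := ha.2
    rw [hR.1 i hi] at h2
    omega
  refine ⟨hj, fun hi => ⟨ha.1, ?_⟩⟩
  have h2 := ha.2
  rwa [hR.1 i hi, hR.1 j hj] at h2

end

theorem cpMono : S_CpMono G := by
  intro p p' r V V' M M' e e' hR hV hM φ hφ hinj
  have hex : ∀ x : Fin (V'.d r) → ℚ, ∃ z : Fin (M'.d r) → ℚ, ∀ t, G.adj r t = true →
      M'.f r t z = out e' hV.out.bij φ t (V'.f r t x) := by
    intro x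
    have hy : ∀ t, ∃ y : Fin (V.d t) → ℚ, G.adj r t = true → e t y = V'.f r t x := by
      intro t
      by_cases ht : G.adj r t = true
      · obtain ⟨y, hy⟩ := (hV.out.bij t (adj_ne ht).symm).2 (V'.f r t x)
        exact ⟨y, fun _ => hy⟩
      · exact ⟨0, fun h => absurd h ht⟩
    choose y hy using hy
    have h1 := (hV.ex y).2 ⟨x, fun t ht => (hy t ht).symm⟩
    have h2 : (∑ t, if G.adj r t then M.f t r (φ t (y t)) else 0) = 0 := by
      have h3 := congrArg (φ r) h1
      rw [map_sum, map_zero] at h3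
      refine Eq.trans ?_ h3
      refine Finset.sum_congr rfl fun t _ => ?_
      split_ifs with ht
      · have h4 := LinearMap.congr_fun (hφ t r ⟨by rw [G.symm]; exact ht, (hR.2 t ht).1⟩) (y t)
        exact h4
      · rw [map_zero]
    obtain ⟨z, hz⟩ := (hM.ex fun t => φ t (y t)).1 h2
    refine ⟨z, fun t ht => ?_⟩
    rw [hz t ht, ← hy t ht, out_apply hV.out (adj_ne ht).symm]
  choose ζ hζ using hex
  have huniq : ∀ z z' : Fin (M'.d r) → ℚ,
      (∀ t, G.adj r t = true → M'.f r t z = M'.f r t z') → z = z' := by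
    intro z z' h
    rw [← sub_eq_zero]
    refine hM.inj _ fun t ht => ?_
    rw [map_sub, h t ht, sub_self]
  let Z : (Fin (V'.d r) → ℚ) →ₗ[ℚ] (Fin (M'.d r) → ℚ) :=
    { toFun := ζ
      map_add' := fun x y => huniq _ _ fun t ht => by
        rw [map_add, hζ _ t ht, hζ _ t ht, hζ _ t ht, map_add, map_add]
      map_smul' := fun c x => huniq _ _ fun t ht => by
        rw [map_smul, hζ _ t ht, hζ _ t ht, map_smul, map_smul, RingHom.id_apply] }
  have hZ : ∀ x t, G.adj r t = true → M'.f r t (Z x) = out e' hV.out.bij φ t (V'.f r t x) :=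
    fun x t ht => hζ x t ht
  have hex2 : ∀ i, ∃ φ'i : (Fin (V'.d i) → ℚ) →ₗ[ℚ] (Fin (M'.d i) → ℚ),
      (i ≠ r → φ'i = out e' hV.out.bij φ i) ∧
      (i = r → Function.Injective φ'i ∧ ∀ x t, G.adj i t = true →
        M'.f i t (φ'i x) = out e' hV.out.bij φ t (V'.f i t x)) := by
    intro i
    by_cases hi : i = r
    · subst hi
      refine ⟨Z, fun h => absurd rfl h, fun _ => ⟨?_, hZ⟩⟩
      intro x y hxy
      rw [← sub_eq_zero]
      refine hV.inj _ fun t ht => ?_
      apply out_inj hV.out hM.out (adj_ne ht).symm (hinj t)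
      rw [← hZ _ t ht, map_sub, hxy, sub_self, map_zero, map_zero]
    · exact ⟨_, fun _ => rfl, fun h => absurd h hi⟩
  choose φ' h1 h2 using hex2
  refine ⟨φ', ?_, ?_⟩
  · intro i j ha
    obtain ⟨hj, hi⟩ := arr_rot hR ha
    by_cases hir : i = r
    · subst hir
      refine LinearMap.ext fun x => ?_
      rw [LinearMap.comp_apply, LinearMap.comp_apply, (h2 i rfl).2 x j ha.1, h1 j hj]
    · rw [h1 i hir, h1 j hj]
      exact out_com hV.out hM.out hφ hir hj (hi hir)
  · intro i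
    by_cases hir : i = r
    · exact (h2 i hir).1
    · rw [h1 i hir]
      exact out_inj hV.out hM.out hir (hinj i)

theorem rsMono : S_RsMono G := by
  intro p p' r V V' M M' e e' hR hV hVr hM φ hφ hinj
  have hE : IsEmpty (Fin (V'.d r)) := by rw [hVr]; infer_instance
  refine ⟨out e' hV.bij φ, ?_, ?_⟩
  · intro i j ha
    obtain ⟨hj, hi⟩ := arr_rot hR ha
    by_cases hir : i = r
    · subst hir
      refine LinearMap.ext fun x => ?_
      rw [Subsingleton.elim x 0, map_zero, map_zero]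
    · exact out_com hV hM hφ hir hj (hi hir)
  · intro i
    by_cases hir : i = r
    · subst hir
      intro x y _
      exact Subsingleton.elim x y
    · exact out_inj hV hM hir (hinj i)

/-- transport to other dimensions -/
noncomputable def epq {a b : ℕ} (h : a = b) : (Fin a → ℚ) ≃ₗ[ℚ] (Fin b → ℚ) :=
  LinearEquiv.funCongrLeft ℚ ℚ (finCongr h.symm)

theorem rs : S_Rs G := by
  intro p r V
  have hd : ∀ i, i ≠ r → V.d i = Function.update V.d r 0 i := fun i hi => by
    rw [Function.update_of_ne hi]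
  refine ⟨⟨Function.update V.d r 0, fun i j => if hi : i ≠ r then
    (if hj : j ≠ r then (epq (hd j hj)).toLinearMap ∘ₗ V.f i j ∘ₗ (epq (hd i hi)).symm.toLinearMap
      else 0) else 0⟩,
    fun i => if hi : i ≠ r then (epq (hd i hi)).toLinearMap else 0, ⟨?_, ?_⟩, ?_⟩
  · intro i hi
    rw [dif_pos hi]
    exact (epq (hd i hi)).bijective
  · intro i j hi hj _
    refine LinearMap.ext fun x => ?_
    simp only [dif_pos hi, dif_pos hj, LinearMap.comp_apply, LinearEquiv.coe_coe,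
      LinearEquiv.symm_apply_apply]
  · exact Function.update_self _ _ _

end

end Pool.Agent.W358.SC
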